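import Pool.Agent.H382R3.KD.Fin1

set_option autoImplicit false

open MeasureTheory Filter Topology Set

namespace Pool.Agent.Results.MP_23b0f8_an.KestenSufficient

open Pool.Agent.H382R3.KD

/-- A countable weighted sum of Dirac masses gives no mass outside its atoms. -/
lemma sum_dirac_compl {ι : Type*} [Countable ι] {w : ι → ENNReal} {p : ι → ℝ}
    (hloc : IsLocallyFiniteMeasure (Measure.sum fun i => w i • Measure.dirac (p i))) :
    (Measure.sum fun i => w i • Measure.dirac (p i))
      {s : ℝ | (Measure.sum fun i => w i • Measure.dirac (p i)) {s} ≠ 0}ᶜ = 0 := by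
  set μ := Measure.sum fun i => w i • Measure.dirac (p i) with hμ
  set A := {s : ℝ | μ {s} ≠ 0} with hA
  have hAm : MeasurableSet A := (countable_atoms hloc).measurableSet
  rw [hμ, Measure.sum_apply _ hAm.compl]
  simp only [Measure.smul_apply, smul_eq_mul, ENNReal.tsum_eq_zero, mul_eq_zero]
  intro i
  by_cases hw : w i = 0
  · left; exact hw
  · right
    rw [Measure.dirac_apply' _ hAm.compl]
    rw [indicator_of_notMem]
    simp only [mem_compl_iff, not_not]
    rw [hA]
    show μ {p i} ≠ 0
    have : w i ≤ μ {p i} := by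
      calc w i = (w i • Measure.dirac (p i)) {p i} := by simp
        _ ≤ μ {p i} := Measure.le_sum (fun i => w i • Measure.dirac (p i)) i _
    intro h0
    rw [h0] at this
    exact hw (le_antisymm this (zero_le))

/-- The atoms of a countable weighted sum of Dirac masses are among its points. -/
lemma atoms_subset {ι : Type*} [Countable ι] {w : ι → ENNReal} {p : ι → ℝ} {s : ℝ}
    (hs : (Measure.sum fun i => w i • Measure.dirac (p i)) {s} ≠ 0) : ∃ i, s = p i := by
  by_contra hne
  push Not at hne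
  apply hs
  rw [Measure.sum_apply _ (measurableSet_singleton s)]
  simp only [Measure.smul_apply, smul_eq_mul, ENNReal.tsum_eq_zero, mul_eq_zero]
  intro i
  right
  rw [Measure.dirac_apply' _ (measurableSet_singleton s)]
  rw [indicator_of_notMem]
  simp only [mem_singleton_iff]
  exact fun h => hne i h.symm

/-- **Q2 has a positive answer, in a strong form.**  Let `D ∈ (0,1)`, `γ` irrational, and suppose
the Kesten condition.  There are one measure `η` and one measure `μ`, the same for all `x₀`, such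
that for every `x₀` and the (unique) staircase `p` the set `Π(H)` has autocorrelation `η`, whose
Fourier transform is `μ`; the measure `μ` is pure point, has infinitely many atoms, and all of them
lie in `(ℤ + γ ℤ) / √((1-D)² + D²)`.  In particular the diffraction condition holds. -/
theorem result : ∀ D γ : ℝ, 0 < D → D < 1 → Irrational γ → Kesten D γ →
    ∃ η μ : Measure ℝ, IsFourierTransformOf η μ ∧
      {s : ℝ | μ {s} ≠ 0}.Infinite ∧ {s : ℝ | μ {s} ≠ 0}.Countable ∧
      μ {s : ℝ | μ {s} ≠ 0}ᶜ = 0 ∧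
      (∀ s : ℝ, μ {s} ≠ 0 → ∃ m k : ℤ, s = (m * γ + k) / Real.sqrt ((1 - D) ^ 2 + D ^ 2)) ∧
      ∀ x₀ : ℝ, (∃! p : ℤ → ℤ × ℤ, IsStaircase D γ x₀ p) ∧
        ∀ p : ℤ → ℤ × ℤ, IsStaircase D γ x₀ p →
          IsAutocorrelation (proj D '' Set.range p) η ∧
          DiffractionCondition (proj D '' Set.range p) := by
  intro D γ h0 h1 hγ hK
  obtain ⟨j, l, hjl⟩ := hK
  have hj : (D : Circ) = j • (γ : Circ) := by
    have h2 : ((l : ℝ) : Circ) = 0 := by
      rw [AddCircle.coe_eq_zero_iff]; exact ⟨l, by simp⟩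
    rw [hjl, AddCircle.coe_add, h2, add_zero, ← zsmul_eq_mul]
    simp
  have ha := addOrderOf_irr hγ
  have hft := (kestenData h0 (γ : Circ) j).isFT h0 h1 rfl (kesten_cocycle h0 h1 hj)
  have hau := fun x₀ : ℝ => isAutocorr h0 h1 ha (x₀ : Circ)
  have hinf : {s : ℝ | (kestenData h0 (γ : Circ) j).mu {s} ≠ 0}.Infinite :=
    infinite_atoms_sum hft.1 (not_finite_of_atom (hau 0).1 (eta_zero h0 _) hft)
  refine ⟨eta D γ, (kestenData h0 (γ : Circ) j).mu, hft, hinf, countable_atoms hft.1,
    sum_dirac_compl hft.1, ?_, ?_⟩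
  · intro s hs
    obtain ⟨q, hq⟩ := atoms_subset hs
    refine ⟨q.1, q.2 - ⌊(q.1 : ℝ) * γ⌋, ?_⟩
    have hc : cc (γ : Circ) q.1 = Int.fract ((q.1 : ℝ) * γ) := by
      unfold cc
      have : q.1 • ((γ : ℝ) : Circ) = (((q.1 : ℝ) * γ : ℝ) : Circ) := by
        rw [← zsmul_eq_mul]; simp
      rw [this, fr_coe]
    have hk : (kestenData h0 (γ : Circ) j).κ = Real.sqrt ((1 - D) ^ 2 + D ^ 2) := rfl
    rw [hq, sp, hc, hk, ← Int.self_sub_floor]
    push_cast
    ring
  · intro x₀
    refine ⟨stair_unique D γ x₀, fun p hp => ?_⟩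
    rw [image_eq hp]
    exact ⟨hau x₀, eta D γ, (kestenData h0 (γ : Circ) j).mu, hau x₀, hft, hinf,
      countable_atoms hft.1⟩

end Pool.Agent.Results.MP_23b0f8_an.KestenSufficient
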